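import Mathlib
import Pool.Agent.TH213.SEL.Bir
import Pool.Agent.TH954.SEt2
import Pool.Agent.Y158.GR.PlcL
import Pool.Agent.Zk12.FG.Stm

/-!
# Birational sections over fields of characteristic zero with an obstruction: limits

The arguments of `Pool.Agent.TH954.SVal`, `SUlt`, `SFinV`, `SUni` for an arbitrary family of places and
an arbitrary field `K` of characteristic zero.
-/

set_option autoImplicit false
set_option linter.all false

open IsDedekindDomain NumberField
open scoped IntermediateField.algebraAdjoinAdjoin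

namespace Pool.Agent.Zk94.FG

open Pool.Agent.TH954 hiding FinVal DSet Rat limW mem_limW exists_ultra exists_value limW_stable
  finVal_of_alg alg_mem_limW j_mem_limW exists_stable unique_ring
open Pool.Agent.Zk12.FG

section

variable {K : Type} [Field K] [CharZero K]

/-- a Galois stable finite set containing a given one -/
lemma exists_stable (R : Finset (AlgebraicClosure K)) :
    ∃ R' : Finset (AlgebraicClosure K), R ⊆ R' ∧
      ∀ σ : AlgebraicClosure K ≃ₐ[K] AlgebraicClosure K, ∀ θ ∈ R', σ θ ∈ R' := by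
  classical
  refine ⟨R.biUnion (fun β => ((minpoly K β).aroots (AlgebraicClosure K)).toFinset), ?_, ?_⟩
  · intro β hβ
    rw [Finset.mem_biUnion]
    refine ⟨β, hβ, ?_⟩
    rw [Multiset.mem_toFinset, Polynomial.mem_aroots]
    exact ⟨minpoly.ne_zero (Algebra.IsIntegral.isIntegral β), minpoly.aeval K β⟩
  · intro σ θ hθ
    rw [Finset.mem_biUnion] at hθ ⊢
    obtain ⟨β, hβ, h⟩ := hθ
    refine ⟨β, hβ, ?_⟩
    rw [Multiset.mem_toFinset, Polynomial.mem_aroots] at h ⊢
    refine ⟨h.1, ?_⟩
    have h1 : Polynomial.aeval (σ θ) (minpoly K β) =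
        σ (Polynomial.aeval θ (minpoly K β)) := Polynomial.aeval_algHom_apply
          (σ : AlgebraicClosure K →ₐ[K] AlgebraicClosure K) θ _
    rw [h1, h.2, map_zero]

variable {M : Type} [Field M] [Algebra K M] (A : SAct K M) {I : Type} {L C : I → Type}
  [∀ i, Field (L i)] [∀ i, Field (C i)] [∀ i, Algebra K (L i)] [∀ i, Algebra (L i) (C i)]
  [∀ i, Algebra K (C i)] [∀ i, IsScalarTower K (L i) (C i)]
  (pl : ∀ v : I, Plc K M (C v))

/-- elements with finitely many values, which are algebraic over `K` -/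
def FinVal (x : M) : Prop := ∃ R : Finset (AlgebraicClosure K), ∀ v, x ∈ (pl v).W →
  ∃ β ∈ R, (pl v).val x ((pl v).iot A.j β)

/-- elements of the fixed field which are everywhere integral and have finitely many values -/
def DSet (u : M) : Prop := u ∈ A.fix ∧ (∀ v, u ∈ (pl v).W) ∧ FinVal A pl u

/-- the value is in `K` -/
def Rat (u : M) (v : I) : Prop :=
  ∃ c : K, (pl v).val u (algebraMap K (C v) c)

variable {A pl}

/-- elements of `DSet` have a rational value -/
theorem DSet.exists_rat [IsAlgClosed M] (hob : Obs K (AlgebraicClosure K) L C)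
    (hpl : ∀ v, ∀ x ∈ A.fix, ∀ hx : x ∈ (pl v).W, ∃ z : L v,
      algebraMap (L v) (C v) z = (pl v).ρ ⟨x, hx⟩)
    {u : M} (hu : DSet A pl u) : ∃ v, Rat pl u v := by
  classical
  obtain ⟨huf, huW, R, hR⟩ := hu
  obtain ⟨R', hRR', hR'⟩ := exists_stable R
  obtain ⟨l, a, hl, hob⟩ := hob (R'.filter (fun θ =>
    ∃ σ : AlgebraicClosure K ≃ₐ[K] AlgebraicClosure K, σ θ ≠ θ)) (by
      intro σ θ hθ
      rw [Finset.mem_filter] at hθ ⊢
      obtain ⟨h1, σ', h2⟩ := hθ
      refine ⟨hR' σ θ h1, σ * σ' * σ⁻¹, fun h3 => h2 ?_⟩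
      have h4 : (σ * σ' * σ⁻¹) (σ θ) = σ (σ' θ) := by
        change σ (σ' (σ.symm (σ θ))) = _
        rw [σ.symm_apply_apply]
      rw [h4] at h3
      exact σ.injective h3) (fun θ hθ => (Finset.mem_filter.1 hθ).2)
  by_cases hua : u = algebraMap K M a
  · obtain ⟨v, -⟩ := hob 1 one_ne_zero
    refine ⟨v, a, ?_⟩
    rw [hua]
    exact Plc.val_alg a
  · obtain ⟨c, hc, g, hg, hfg⟩ := A.kummer (f := u - algebraMap K M a)
      (sub_mem huf (A.fix.algebraMap_mem a)) (sub_ne_zero.2 hua) (n := l) (by omega)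
    obtain ⟨v, hv⟩ := hob c hc
    refine ⟨v, ?_⟩
    obtain ⟨β, hβ, hval⟩ := hR v (huW v)
    by_cases hfix : ∀ σ : AlgebraicClosure K ≃ₐ[K] AlgebraicClosure K, σ β = β
    · obtain ⟨c', hc'⟩ := base_of_fixed hfix
      refine ⟨c', ?_⟩
      rw [← hc'] at hval
      rw [← ((pl v).iot A.j).commutes c']
      exact hval
    · exfalso
      push Not at hfix
      have hgl : g ^ l = (u - algebraMap K M a) * algebraMap K M c⁻¹ := by
        rw [hfg, map_inv₀]
        field_simp [(map_ne_zero (algebraMap K M)).2 hc]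
      have hgW : g ∈ (pl v).W := by
        apply Plc.mem_of_pow_mem (n := l) (by omega)
        rw [hgl]
        exact mul_mem (sub_mem (huW v) ((pl v).alg_mem a)) ((pl v).alg_mem _)
      obtain ⟨z, hz⟩ := hpl v g hg hgW
      refine hv ((pl v).iot A.j) β (Finset.mem_filter.2 ⟨hRR' hβ, hfix⟩) z ?_
      have h1 : (pl v).val (u - algebraMap K M a)
          ((pl v).iot A.j β - algebraMap K (C v) a) :=
        hval.sub (Plc.val_alg a)
      have h2 : (pl v).val (algebraMap K M c * g ^ l)
          (algebraMap K (C v) c *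
            (algebraMap (L v) (C v) z) ^ l) :=
        (Plc.val_alg c).mul (Plc.val.pow ⟨hgW, hz.symm⟩ l)
      rw [← hfg] at h2
      have h3 := h1.unique h2
      rw [map_sub, ((pl v).iot A.j).commutes a, h3, map_mul, map_pow,
        ← IsScalarTower.algebraMap_apply]

/-- two elements of `DSet` can be combined -/
theorem DSet.combine {u1 u2 : M} (h1 : DSet A pl u1) (h2 : DSet A pl u2) :
    ∃ u, DSet A pl u ∧ ∀ v, Rat pl u v → Rat pl u1 v ∧ Rat pl u2 v := by
  classical
  obtain ⟨hf1, hW1, R1, hR1⟩ := h1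
  obtain ⟨hf2, hW2, R2, hR2⟩ := h2
  obtain ⟨R1', hRR1, hs1⟩ := exists_stable R1
  obtain ⟨R2', hRR2, hs2⟩ := exists_stable R2
  obtain ⟨B, hB⟩ : ∃ B : ℕ, (B : AlgebraicClosure K) ∉
      ((R1' ×ˢ R1') ×ˢ (R2' ×ˢ R2')).image
        (fun p => -((p.1.1 - p.1.2) / (p.2.1 - p.2.2))) := by
    have h3 : (Set.range (Nat.cast : ℕ → AlgebraicClosure K)).Infinite :=
      Set.infinite_range_of_injective Nat.cast_injective
    obtain ⟨x, ⟨B, rfl⟩, hx⟩ := h3.exists_notMem_finset
      (((R1' ×ˢ R1') ×ˢ (R2' ×ˢ R2')).image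
        (fun p => -((p.1.1 - p.1.2) / (p.2.1 - p.2.2))))
    exact ⟨B, hx⟩
  refine ⟨u1 + (B : M) * u2, ⟨?_, ?_, ?_⟩, ?_⟩
  · exact add_mem hf1 (mul_mem (natCast_mem A.fix B) hf2)
  · intro v
    exact add_mem (hW1 v) (mul_mem (natCast_mem (pl v).W B) (hW2 v))
  · refine ⟨(R1 ×ˢ R2).image (fun p => p.1 + (B : AlgebraicClosure K) * p.2), fun v _ => ?_⟩
    obtain ⟨β1, hβ1, hv1⟩ := hR1 v (hW1 v)
    obtain ⟨β2, hβ2, hv2⟩ := hR2 v (hW2 v)
    refine ⟨_, Finset.mem_image.2 ⟨(β1, β2), Finset.mem_product.2 ⟨hβ1, hβ2⟩, rfl⟩, ?_⟩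
    rw [map_add, map_mul, map_natCast]
    exact hv1.add ((Plc.val_natCast B).mul hv2)
  · rintro v ⟨c, hc⟩
    obtain ⟨β1, hβ1, hv1⟩ := hR1 v (hW1 v)
    obtain ⟨β2, hβ2, hv2⟩ := hR2 v (hW2 v)
    have h3 := (hv1.add ((Plc.val_natCast (pl := pl v) B).mul hv2)).unique hc
    have h4 : β1 + (B : AlgebraicClosure K) * β2 = algebraMap K (AlgebraicClosure K) c := by
      have h4' : (pl v).iot A.j (β1 + (B : AlgebraicClosure K) * β2) =
          (pl v).iot A.j (algebraMap K (AlgebraicClosure K) c) := by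
        rw [map_add, map_mul, map_natCast, h3, ((pl v).iot A.j).commutes c]
      exact ((pl v).iot A.j).injective h4'
    have h5 : ∀ σ : AlgebraicClosure K ≃ₐ[K] AlgebraicClosure K, σ β2 = β2 := by
      intro σ
      by_contra hne
      apply hB
      refine Finset.mem_image.2 ⟨((σ β1, β1), (σ β2, β2)), ?_, ?_⟩
      · simp only [Finset.mem_product]
        exact ⟨⟨hs1 σ _ (hRR1 hβ1), hRR1 hβ1⟩, ⟨hs2 σ _ (hRR2 hβ2), hRR2 hβ2⟩⟩
      · have h6 := congrArg σ h4
        rw [map_add, map_mul, map_natCast, σ.commutes, ← h4] at h6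
        have h7 : σ β2 - β2 ≠ 0 := sub_ne_zero.2 hne
        change -((σ β1 - β1) / (σ β2 - β2)) = (B : AlgebraicClosure K)
        rw [neg_eq_iff_eq_neg, div_eq_iff h7]
        linear_combination h6
    have h6 : ∀ σ : AlgebraicClosure K ≃ₐ[K] AlgebraicClosure K, σ β1 = β1 := by
      intro σ
      have h6 := congrArg σ h4
      rw [map_add, map_mul, map_natCast, σ.commutes, ← h4, h5 σ] at h6
      exact add_right_cancel h6
    obtain ⟨c1, hc1⟩ := base_of_fixed h6
    obtain ⟨c2, hc2⟩ := base_of_fixed h5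
    refine ⟨⟨c1, ?_⟩, ⟨c2, ?_⟩⟩
    · rw [← ((pl v).iot A.j).commutes c1, hc1]
      exact hv1
    · rw [← ((pl v).iot A.j).commutes c2, hc2]
      exact hv2

lemma DSet.zero : DSet A pl (0 : M) := by
  refine ⟨zero_mem _, fun v => zero_mem _, {0}, fun v _ => ⟨0, Finset.mem_singleton_self _, ?_⟩⟩
  rw [map_zero]
  exact Plc.val_zero

/-- the ultrafilter -/
theorem exists_ultra [IsAlgClosed M] (hob : Obs K (AlgebraicClosure K) L C)
    (hpl : ∀ v, ∀ x ∈ A.fix, ∀ hx : x ∈ (pl v).W, ∃ z : L v,
      algebraMap (L v) (C v) z = (pl v).ρ ⟨x, hx⟩) :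
    ∃ U : Ultrafilter (I), ∀ u, DSet A pl u →
      ∀ᶠ v in (U : Filter (I)), Rat pl u v := by
  have : Nonempty {u : M // DSet A pl u} := ⟨⟨0, DSet.zero⟩⟩
  let f : {u : M // DSet A pl u} → Filter (I) :=
    fun u => Filter.principal {v | Rat pl u.1 v}
  have hne : (⨅ u, f u).NeBot := by
    apply Filter.iInf_neBot_of_directed'
    · rintro ⟨u1, h1⟩ ⟨u2, h2⟩
      obtain ⟨u, hu, h⟩ := h1.combine h2
      refine ⟨⟨u, hu⟩, ?_, ?_⟩
      · exact Filter.principal_mono.2 (fun v hv => (h v hv).1)
      · exact Filter.principal_mono.2 (fun v hv => (h v hv).2)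
    · rintro ⟨u, hu⟩
      obtain ⟨v, hv⟩ := hu.exists_rat hob hpl
      exact Filter.principal_neBot_iff.2 ⟨v, hv⟩
  refine ⟨Ultrafilter.of (⨅ u, f u), fun u hu => ?_⟩
  have h1 : (Ultrafilter.of (⨅ u, f u) : Filter (I)) ≤ f ⟨u, hu⟩ :=
    (Ultrafilter.of_le _).trans (iInf_le f ⟨u, hu⟩)
  exact h1 (Filter.mem_principal_self _)


/-! ### the limit ring -/

variable (A pl) (U : Ultrafilter I)

/-- the limit of the valuation rings -/
def limW : ValuationSubring M where
  carrier := {x | ∀ᶠ v in (U : Filter (I)), x ∈ (pl v).W}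
  mul_mem' := fun {x y} hx hy => by
    filter_upwards [hx, hy] with v h1 h2
    exact mul_mem h1 h2
  one_mem' := Filter.Eventually.of_forall (fun _ => one_mem _)
  add_mem' := fun {x y} hx hy => by
    filter_upwards [hx, hy] with v h1 h2
    exact add_mem h1 h2
  zero_mem' := Filter.Eventually.of_forall (fun v => zero_mem _)
  neg_mem' := fun {x} hx => by
    filter_upwards [hx] with v h1
    exact neg_mem h1
  mem_or_inv_mem' := fun x => by
    rcases U.eventually_or.1 (Filter.Eventually.of_forall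
      (fun v => (pl v).W.mem_or_inv_mem x)) with h | h
    · exact Or.inl h
    · exact Or.inr h

variable {A pl U}

lemma mem_limW {x : M} : x ∈ limW pl U ↔
    ∀ᶠ v in (U : Filter (I)), x ∈ (pl v).W := Iff.rfl

lemma alg_mem_limW (c : K) : algebraMap K M c ∈ limW pl U :=
  Filter.Eventually.of_forall (fun v => (pl v).alg_mem c)

lemma j_mem_limW (z : AlgebraicClosure K) : A.j z ∈ limW pl U :=
  Filter.Eventually.of_forall (fun _ => (Plc.val_j A.j z).mem)

/-- elements of the limit ring which are fixed and have finitely many values have a rational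
value -/
theorem exists_value (hU : ∀ u, DSet A pl u →
      ∀ᶠ v in (U : Filter (I)), Rat pl u v)
    {x : M} (hx : x ∈ A.fix) (hfin : FinVal A pl x) (hxW : x ∈ limW pl U) :
    ∃ c : K, ∀ᶠ v in (U : Filter (I)),
      (pl v).val x (algebraMap K (C v) c) := by
  classical
  obtain ⟨R, hR⟩ := hfin
  obtain ⟨a, ha⟩ : ∃ a : ℕ, (a : AlgebraicClosure K) ∉ R := by
    have h3 : (Set.range (Nat.cast : ℕ → AlgebraicClosure K)).Infinite :=
      Set.infinite_range_of_injective Nat.cast_injective
    obtain ⟨x, ⟨B, rfl⟩, hx⟩ := h3.exists_notMem_finset R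
    exact ⟨B, hx⟩
  have hxa : x ≠ (a : M) := by
    intro h
    obtain ⟨v, hv⟩ := hxW.exists
    obtain ⟨β, hβ, h1⟩ := hR v hv
    rw [h] at h1
    have h2 := h1.unique (Plc.val_natCast a)
    rw [← map_natCast ((pl v).iot A.j)] at h2
    apply ha
    rw [← ((pl v).iot A.j).injective h2]
    exact hβ
  have hxa0 : x - (a : M) ≠ 0 := sub_ne_zero.2 hxa
  have hval : ∀ v, (x ∉ (pl v).W ∧ (pl v).val (x - (a : M))⁻¹ 0) ∨
      ∃ β ∈ R, (pl v).val x ((pl v).iot A.j β) ∧
        (pl v).val (x - (a : M))⁻¹ ((pl v).iot A.j (β - (a : AlgebraicClosure K))⁻¹) := by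
    intro v
    by_cases hv : x ∈ (pl v).W
    · right
      obtain ⟨β, hβ, h1⟩ := hR v hv
      refine ⟨β, hβ, h1, ?_⟩
      rw [map_inv₀, map_sub, map_natCast]
      refine (h1.sub (Plc.val_natCast a)).inv ?_
      rw [← map_natCast ((pl v).iot A.j), ← map_sub]
      refine (map_ne_zero _).2 (sub_ne_zero.2 ?_)
      rintro rfl
      exact ha hβ
    · left
      refine ⟨hv, Plc.val_inv_of_notMem (fun h => hv ?_)⟩
      have := add_mem h (natCast_mem (pl v).W a)
      rwa [sub_add_cancel] at this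
  have hu : DSet A pl (x - (a : M))⁻¹ := by
    refine ⟨inv_mem (sub_mem hx (natCast_mem A.fix a)), fun v => ?_, insert 0
      (R.image (fun β => (β - (a : AlgebraicClosure K))⁻¹)), fun v _ => ?_⟩
    · rcases hval v with ⟨-, h⟩ | ⟨β, -, -, h⟩
      · exact h.mem
      · exact h.mem
    · rcases hval v with ⟨-, h⟩ | ⟨β, hβ, -, h⟩
      · refine ⟨0, Finset.mem_insert_self _ _, ?_⟩
        rw [map_zero]
        exact h
      · exact ⟨_, Finset.mem_insert_of_mem (Finset.mem_image_of_mem _ hβ), h⟩
  have h1 : ∀ᶠ v in (U : Filter (I)), ∃ β ∈ R,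
      (∃ c : K, algebraMap K (AlgebraicClosure K) c = β) ∧
      (pl v).val x ((pl v).iot A.j β) := by
    filter_upwards [hU _ hu, hxW] with v h1 h2
    rcases hval v with ⟨h3, -⟩ | ⟨β, hβ, h3, h4⟩
    · exact absurd h2 h3
    · refine ⟨β, hβ, ?_, h3⟩
      obtain ⟨c, hc⟩ := h1
      have h5 := h4.unique hc
      have h6 : (β - (a : AlgebraicClosure K))⁻¹ = algebraMap K (AlgebraicClosure K) c := by
        have h7 : (pl v).iot A.j (β - (a : AlgebraicClosure K))⁻¹ =
            (pl v).iot A.j (algebraMap K (AlgebraicClosure K) c) := by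
          rw [h5, ((pl v).iot A.j).commutes c]
        exact ((pl v).iot A.j).injective h7
      refine ⟨(a : K) + c⁻¹, ?_⟩
      rw [map_add, map_natCast, map_inv₀, ← h6, inv_inv]
      ring
  obtain ⟨β, hβ, h2⟩ : ∃ β ∈ R, ∀ᶠ v in (U : Filter (I)),
      ((∃ c : K, algebraMap K (AlgebraicClosure K) c = β) ∧
      (pl v).val x ((pl v).iot A.j β)) := by
    have h3 : (⋃ β ∈ (R : Set (AlgebraicClosure K)), {v |
        (∃ c : K, algebraMap K (AlgebraicClosure K) c = β) ∧
        (pl v).val x ((pl v).iot A.j β)}) ∈ U := by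
      filter_upwards [h1] with v hv
      obtain ⟨β, hβ, h⟩ := hv
      exact Set.mem_iUnion₂.2 ⟨β, hβ, h⟩
    obtain ⟨β, hβ, h4⟩ := (Ultrafilter.finite_biUnion_mem_iff R.finite_toSet).1 h3
    exact ⟨β, hβ, h4⟩
  obtain ⟨v0, ⟨c, hc⟩, -⟩ := h2.exists
  refine ⟨c, ?_⟩
  filter_upwards [h2] with v hv
  have h4 := hv.2
  rw [← hc, ((pl v).iot A.j).commutes c] at h4
  exact h4

/-- the limit ring is stable under the action -/
theorem limW_stable (hU : ∀ u, DSet A pl u →
      ∀ᶠ v in (U : Filter (I)), Rat pl u v)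
    (hfin : ∀ x : M, FinVal A pl x) (τ : AlgebraicClosure K ≃ₐ[K] AlgebraicClosure K) {x : M}
    (hx : x ∈ limW pl U) : A.s τ x ∈ limW pl U := by
  classical
  obtain ⟨θ, y, hy, hxy⟩ := A.descend x
  have hint : IsIntegral K θ := (Algebra.IsAlgebraic.isAlgebraic θ).isIntegral
  have hd : 0 < (minpoly K θ).natDegree := minpoly.natDegree_pos hint
  have : Nonempty (Fin (minpoly K θ).natDegree) := ⟨⟨0, hd⟩⟩
  have hyW : ∀ i, y i ∈ limW pl U := by
    obtain ⟨i0, hi0⟩ := Finite.exists_max (fun i => (limW pl U).valuation (y i))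
    by_cases h0 : y i0 = 0
    · intro i
      have h1 := hi0 i
      change (limW pl U).valuation (y i) ≤ (limW pl U).valuation (y i0) at h1
      rw [h0, map_zero] at h1
      have h2 : (limW pl U).valuation (y i) = 0 := le_antisymm h1 zero_le
      rw [(map_eq_zero _).1 h2]
      exact zero_mem _
    · have hz : ∀ i, y i / y i0 ∈ limW pl U := by
        intro i
        rw [← ValuationSubring.valuation_le_one_iff, map_div₀]
        exact div_le_one_of_le₀ (hi0 i) zero_le
      have hzf : ∀ i, y i / y i0 ∈ A.fix := fun i => div_mem (hy i) (hy i0)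
      choose c hc using fun i => exists_value hU (hzf i) (hfin _) (hz i)
      have hc0 : c i0 = 1 := by
        obtain ⟨v, hv⟩ := (hc i0).exists
        rw [div_self h0] at hv
        have := hv.unique Plc.val_one
        rw [← map_one (algebraMap K (C v))] at this
        exact (algebraMap K (C v)).injective this
      have hlin : ∑ i, algebraMap K (AlgebraicClosure K) (c i) * θ ^ (i : ℕ) ≠ 0 := by
        intro hs
        have hli := linearIndependent_pow (K := K) θ
        rw [Fintype.linearIndependent_iff] at hli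
        have := hli c (by
          simp only [Algebra.smul_def]
          exact hs) i0
        rw [hc0] at this
        exact one_ne_zero this
      have hxz : (x / y i0)⁻¹ ∈ limW pl U := by
        have h1 : ∀ᶠ v in (U : Filter (I)), ∀ i,
            (pl v).val (y i / y i0)
              (algebraMap K (C v) (c i)) :=
          Filter.eventually_all.2 hc
        rw [mem_limW]
        filter_upwards [h1] with v hv
        have h2 : (pl v).val (x / y i0)
            ((pl v).iot A.j (∑ i, algebraMap K (AlgebraicClosure K) (c i) * θ ^ (i : ℕ))) := by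
          have e : x / y i0 = ∑ i, (y i / y i0) * A.j (θ ^ (i : ℕ)) := by
            rw [hxy, Finset.sum_div]
            exact Finset.sum_congr rfl (fun i _ => by ring)
          rw [e, map_sum]
          refine Plc.val_sum _ (fun i _ => ?_)
          rw [map_mul, ((pl v).iot A.j).commutes]
          exact (hv i).mul (Plc.val_j A.j _)
        exact (h2.inv ((map_ne_zero _).2 hlin)).mem
      have hy0 : y i0 ∈ limW pl U := by
        by_cases hx0 : x = 0
        · exfalso
          -- the inverse of zero is in the ring, use linear independence directly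
          have h1 : ∀ᶠ v in (U : Filter (I)), ∀ i,
              (pl v).val (y i / y i0)
                (algebraMap K (C v) (c i)) :=
            Filter.eventually_all.2 hc
          obtain ⟨v, hv⟩ := h1.exists
          have h2 : (pl v).val (x / y i0)
              ((pl v).iot A.j (∑ i, algebraMap K (AlgebraicClosure K) (c i) * θ ^ (i : ℕ))) := by
            have e : x / y i0 = ∑ i, (y i / y i0) * A.j (θ ^ (i : ℕ)) := by
              rw [hxy, Finset.sum_div]
              exact Finset.sum_congr rfl (fun i _ => by ring)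
            rw [e, map_sum]
            refine Plc.val_sum _ (fun i _ => ?_)
            rw [map_mul, ((pl v).iot A.j).commutes]
            exact (hv i).mul (Plc.val_j A.j _)
          rw [hx0, zero_div] at h2
          exact (map_ne_zero ((pl v).iot A.j)).2 hlin (h2.unique Plc.val_zero)
        · have h3 := mul_mem hx hxz
          have e : x * (x / y i0)⁻¹ = y i0 := by
            field_simp
          rwa [e] at h3
      intro i
      have h3 := mul_mem (hz i) hy0
      rwa [div_mul_cancel₀ _ h0] at h3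
  rw [hxy, map_sum]
  refine sum_mem (fun i _ => ?_)
  rw [map_mul, hy i τ, A.hj]
  exact mul_mem (hyW i) (j_mem_limW _)


variable (A pl)

theorem finVal_of_alg {t : M} (ht0 : t ≠ 0) (htv : ∀ v, (pl v).val t 0)
    (hdim : ∀ x : M, Transcendental K x → IsAlgebraic (Algebra.adjoin K {x}) t) (x : M) :
    FinVal A pl x := by
  classical
  by_cases hx : IsAlgebraic K x
  · obtain ⟨z, hz⟩ := alg_range A.j hx
    refine ⟨{z}, fun v _ => ⟨z, Finset.mem_singleton_self _, ?_⟩⟩
    rw [← hz]
    exact Plc.val_j A.j z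
  · obtain ⟨u, hu, r, hr0, hur⟩ := (hdim x hx).exists_nonzero_eq_adjoin_mul
      (mem_nonZeroDivisors_of_ne_zero ht0)
    obtain ⟨g, hg⟩ : ∃ g : Polynomial K, Polynomial.aeval x g = (r : M) :=
      exists_aeval_of_mem r.2
    have hg0 : g ≠ 0 := by
      rintro rfl
      rw [map_zero] at hg
      exact hr0 (Subtype.ext hg.symm)
    refine ⟨(g.aroots (AlgebraicClosure K)).toFinset, fun v hv => ?_⟩
    obtain ⟨c, hc⟩ := Plc.val_of_mem hv
    -- the adjoined elements are in the valuation ring
    have h1 : ∀ y ∈ Algebra.adjoin K {x}, y ∈ (pl v).W := by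
      intro y hy
      obtain ⟨q, rfl⟩ := exists_aeval_of_mem hy
      exact (Plc.val_aeval hc q).mem
    have h2 : u ∈ (pl v).W := by
      obtain ⟨q, rfl⟩ := exists_aeval_of_mem hu
      rw [Polynomial.aeval_eq_sum_range]
      refine sum_mem (fun i _ => ?_)
      rw [Algebra.smul_def]
      exact mul_mem (h1 _ (q.coeff i).2) (pow_mem (htv v).mem i)
    obtain ⟨d, hd⟩ := Plc.val_of_mem h2
    have h3 := (htv v).mul hd
    rw [hur, zero_mul] at h3
    have h4 : (pl v).val (r : M) 0 := h3
    rw [← hg] at h4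
    have h5 := (Plc.val_aeval hc g).unique h4
    have hs : (g.map (algebraMap K (AlgebraicClosure K))).Splits := IsAlgClosed.splits _
    have h0 : g.map (algebraMap K (AlgebraicClosure K)) ≠ 0 :=
      (Polynomial.map_ne_zero_iff (algebraMap K (AlgebraicClosure K)).injective).2 hg0
    obtain ⟨β, hβ⟩ := hs.mem_range_of_isRoot
      (i := ((pl v).iot A.j : AlgebraicClosure K →+* C v))
      (x := c) h0 (by
        rw [Polynomial.IsRoot.def, Polynomial.eval_map, Polynomial.eval₂_map]
        have e1 : ((pl v).iot A.j : AlgebraicClosure K →+*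
            C v).comp (algebraMap K (AlgebraicClosure K)) =
            algebraMap K (C v) :=
          ((pl v).iot A.j).comp_algebraMap
        rw [e1]
        exact h5)
    have hβ' : (pl v).iot A.j β = c := hβ
    refine ⟨β, ?_, ?_⟩
    · rw [Multiset.mem_toFinset, Polynomial.mem_aroots]
      refine ⟨hg0, ?_⟩
      have h6 : (pl v).iot A.j (Polynomial.aeval β g) = 0 := by
        rw [← Polynomial.aeval_algHom_apply, hβ']
        exact h5
      exact (map_eq_zero _).1 h6
    · rw [hβ']
      exact hc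


end

/-- two valuation rings with the same residue field `K` which are fixed by a section are equal -/
theorem unique_ring' {K : Type} [Field K] [CharZero K] (hK2 : ∃ N : ℕ, 0 < N ∧ ∀ c : K, c ^ N ≠ 2) {M : Type} [Field M] [Algebra K M]
    [IsAlgClosed M] (A : SAct K M) {F : Type} [Field F] [Algebra K F] [Algebra F M]
    [IsScalarTower K F M] (hF : ∀ x : F, algebraMap F M x ∈ A.fix)
    (O1 O2 : ValuationSubring F)
    (h1 : ∀ c : K, algebraMap K F c ∈ O1) (h2 : ∀ c : K, algebraMap K F c ∈ O2)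
    (h1' : ∀ a ∈ O1, ∃ c : K, O1.valuation (a - algebraMap K F c) < 1)
    (h2' : ∀ a ∈ O2, ∃ c : K, O2.valuation (a - algebraMap K F c) < 1)
    (W1 W2 : ValuationSubring M) (hW1 : W1.comap (algebraMap F M) = O1)
    (hW2 : W2.comap (algebraMap F M) = O2)
    (hs1 : ∀ τ x, x ∈ W1 → A.s τ x ∈ W1) (hs2 : ∀ τ x, x ∈ W2 → A.s τ x ∈ W2) : O1 = O2 := by
  have hle : ∀ O O' : ValuationSubring F, (∀ c : K, algebraMap K F c ∈ O) →
      (∀ a ∈ O', ∃ c : K, O'.valuation (a - algebraMap K F c) < 1) → O ≤ O' → O' ≤ O := by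
    intro O O' hc hr hOO x hx
    obtain ⟨c, hc'⟩ := hr x hx
    have h3 : x - algebraMap K F c ∈ O := by
      rcases (ValuationSubring.mem_nonunits_iff_or _).1 hc' with h | h
      · rw [h]
        exact zero_mem _
      · exact (O.mem_or_inv_mem _).resolve_right (fun h4 => h (hOO h4))
    have h4 := add_mem h3 (hc c)
    rwa [sub_add_cancel] at h4
  by_contra hne
  have hn1 : ¬ O1 ≤ O2 := fun h => hne (le_antisymm h (hle O1 O2 h1 h2' h))
  have hn2 : ¬ O2 ≤ O1 := fun h => hne (le_antisymm (hle O2 O1 h2 h1' h) h)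
  obtain ⟨a, ha1, ha2⟩ := Set.not_subset.1 hn1
  obtain ⟨b, hb2, hb1⟩ := Set.not_subset.1 hn2
  have ha1' : O1.valuation a ≤ 1 := (O1.valuation_le_one_iff a).2 ha1
  have ha2' : 1 < O2.valuation a := not_le.1 (fun h => ha2 ((O2.valuation_le_one_iff a).1 h))
  have hb2' : O2.valuation b ≤ 1 := (O2.valuation_le_one_iff b).2 hb2
  have hb1' : 1 < O1.valuation b := not_le.1 (fun h => hb1 ((O1.valuation_le_one_iff b).1 h))
  have ha0 : a ≠ 0 := by
    rintro rfl
    rw [map_zero] at ha2'
    exact absurd ha2' (not_lt.2 zero_le_one)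
  have hb0 : b ≠ 0 := by
    rintro rfl
    rw [map_zero] at hb1'
    exact absurd hb1' (not_lt.2 zero_le_one)
  set t : F := a / b with ht
  have ht1 : O1.valuation t < 1 := by
    rw [ht, map_div₀, div_lt_one₀ (zero_lt_one.trans hb1')]
    exact lt_of_le_of_lt ha1' hb1'
  have ht2 : 1 < O2.valuation t := by
    rw [ht, map_div₀]
    have hb0' : 0 < O2.valuation b := zero_lt_iff.2 ((Valuation.ne_zero_iff _).2 hb0)
    rw [one_lt_div₀ hb0']
    exact lt_of_le_of_lt hb2' ha2'
  have h1t1 : O1.valuation (1 + t) = 1 := by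
    have := Valuation.map_add_eq_of_lt_left O1.valuation (x := 1) (y := t)
      (by rw [map_one]; exact ht1)
    rwa [map_one] at this
  have h1t2 : O2.valuation (1 + t) = O2.valuation t :=
    Valuation.map_add_eq_of_lt_right O2.valuation (by rw [map_one]; exact ht2)
  have h1t0 : (1 + t) ≠ 0 := by
    intro h
    rw [h, map_zero] at h1t1
    exact zero_ne_one h1t1
  have hcharF : CharZero F := charZero_of_injective_algebraMap (algebraMap K F).injective
  have h22 : O2.valuation (2 : F) = 1 := by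
    have e1 : O2.valuation (2 : F) ≤ 1 := by
      rw [O2.valuation_le_one_iff]
      have := h2 2
      rwa [map_ofNat] at this
    have e2 : O2.valuation (2 : F)⁻¹ ≤ 1 := by
      rw [O2.valuation_le_one_iff]
      have := h2 2⁻¹
      rwa [map_inv₀, map_ofNat] at this
    refine le_antisymm e1 ?_
    rw [map_inv₀] at e2
    exact (inv_le_one₀ (zero_lt_iff.2 ((Valuation.ne_zero_iff _).2 two_ne_zero))).1 e2
  obtain ⟨N, hN0, hN2⟩ := hK2
  have hK1 : ∀ c : K, algebraMap K M c ∈ W1 := by
    intro c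
    have h3 : algebraMap K F c ∈ W1.comap (algebraMap F M) := by rw [hW1]; exact h1 c
    rw [ValuationSubring.mem_comap, ← IsScalarTower.algebraMap_apply] at h3
    exact h3
  have hK2 : ∀ c : K, algebraMap K M c ∈ W2 := by
    intro c
    have h3 : algebraMap K F c ∈ W2.comap (algebraMap F M) := by rw [hW2]; exact h2 c
    rw [ValuationSubring.mem_comap, ← IsScalarTower.algebraMap_apply] at h3
    exact h3
  have hval : ∀ (O : ValuationSubring F) (W : ValuationSubring M),
      W.comap (algebraMap F M) = O → ∀ x : F, O.valuation x < 1 →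
        W.valuation (algebraMap F M x) < 1 := by
    intro O W hOW x hx
    rcases (ValuationSubring.mem_nonunits_iff_or _).1 hx with h | h
    · rw [h, map_zero, map_zero]
      exact zero_lt_one
    · apply (ValuationSubring.mem_nonunits_iff_or _).2
      right
      intro h3
      apply h
      rw [← hOW, ValuationSubring.mem_comap, map_inv₀]
      exact h3
  have hf1 : O1.valuation ((1 + 2 * t) / (1 + t) - 1) < 1 := by
    have e : (1 + 2 * t) / (1 + t) - 1 = t / (1 + t) := by
      field_simp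
      ring
    rw [e, map_div₀, h1t1, div_one]
    exact ht1
  have hf2 : O2.valuation ((1 + 2 * t) / (1 + t) / 2 - 1) < 1 := by
    have e : (1 + 2 * t) / (1 + t) / 2 - 1 = -(1 / (2 * (1 + t))) := by
      field_simp
      ring
    rw [e, Valuation.map_neg, map_div₀, map_one, map_mul, h22, one_mul, h1t2]
    rw [div_lt_one₀ (zero_lt_one.trans ht2)]
    exact ht2
  obtain ⟨g1, hg1, hg1N⟩ := exists_root A hK1 hs1 (hF ((1 + 2 * t) / (1 + t))) (by
    have := hval O1 W1 hW1 _ hf1
    rwa [map_sub, map_one] at this) (N := N) hN0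
  obtain ⟨g2, hg2, hg2N⟩ := exists_root A hK2 hs2 (hF ((1 + 2 * t) / (1 + t) / 2)) (by
    have := hval O2 W2 hW2 _ hf2
    rwa [map_sub, map_one] at this) (N := N) hN0
  have hcharM : CharZero M := charZero_of_injective_algebraMap (algebraMap K M).injective
  have hnz : algebraMap F M ((1 + 2 * t) / (1 + t)) ≠ 0 := by
    intro h0
    have h3 := hval O1 W1 hW1 _ hf1
    rw [map_sub, h0, map_one, zero_sub, Valuation.map_neg, map_one] at h3
    exact lt_irrefl _ h3
  have hpow : (g1 / g2) ^ N = 2 := by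
    rw [div_pow, hg1N, hg2N, map_div₀ (algebraMap F M) _ 2, map_ofNat]
    field_simp
  obtain ⟨z, hz⟩ := Pool.Agent.W620.SC.root_mem (A.j : AlgebraicClosure K →+* M)
    (n := N) hN0 (h := g1 / g2) (b := 2) (by rw [hpow, map_ofNat])
  have hzf : A.j z ∈ A.fix := by
    have hz' : A.j z = g1 / g2 := hz
    rw [hz']
    exact div_mem hg1 hg2
  obtain ⟨c, hc⟩ := A.fix_j hzf
  refine hN2 c ?_
  apply (algebraMap K (AlgebraicClosure K)).injective
  apply (A.j : AlgebraicClosure K →+* M).injective
  rw [map_pow, map_pow, hc, hz, map_ofNat, map_ofNat]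
  exact hpow


end Pool.Agent.Zk94.FG
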