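import Mathlib
import Pool.Agent.Zk94.FG.Ult

/-!
# Birational sections over fields of characteristic zero with an obstruction: the theorem
-/

set_option autoImplicit false
set_option linter.all false

open IsDedekindDomain NumberField
open scoped IntermediateField.algebraAdjoinAdjoin

namespace Pool.Agent.Zk94.FG

open Pool.Agent.TH954 hiding FinVal DSet Rat limW mem_limW exists_ultra exists_value limW_stable
  finVal_of_alg alg_mem_limW j_mem_limW exists_stable unique_ring
open Pool.Agent.Zk12.FG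

/-- the obstruction does not depend on the algebraic closure -/
theorem obs_alg {k B : Type} [Field k] [Field B] [Algebra k B] [IsAlgClosure k B] {I : Type}
    {L C : I → Type} [∀ i, Field (L i)] [∀ i, Field (C i)] [∀ i, Algebra k (L i)]
    [∀ i, Algebra (L i) (C i)] [∀ i, Algebra k (C i)] (h : Obs k B L C) :
    Obs k (AlgebraicClosure k) L C := by
  classical
  intro T hT hT2
  obtain ⟨e⟩ : Nonempty (AlgebraicClosure k ≃ₐ[k] B) :=
    ⟨IsAlgClosure.equiv k (AlgebraicClosure k) B⟩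
  obtain ⟨l, a, hl, hc⟩ := h (T.image e) (by
    intro σ θ hθ
    obtain ⟨θ', hθ', rfl⟩ := Finset.mem_image.1 hθ
    refine Finset.mem_image.2 ⟨e.symm (σ (e θ')), ?_, e.apply_symm_apply _⟩
    exact hT ((e.trans σ).trans e.symm) θ' hθ') (by
    intro θ hθ
    obtain ⟨θ', hθ', rfl⟩ := Finset.mem_image.1 hθ
    obtain ⟨σ, hσ⟩ := hT2 θ' hθ'
    refine ⟨(e.symm.trans σ).trans e, fun h1 => hσ ?_⟩
    apply e.injective
    change e (σ (e.symm (e θ'))) = e θ' at h1
    rwa [e.symm_apply_apply] at h1)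
  refine ⟨l, a, hl, fun c hc0 => ?_⟩
  obtain ⟨i, hi⟩ := hc c hc0
  refine ⟨i, fun ι θ hθ z hz => ?_⟩
  refine hi (ι.comp e.symm.toAlgHom) (e θ) (Finset.mem_image_of_mem _ hθ) z ?_
  rw [← hz]
  change ι (e.symm (e θ - algebraMap k B a)) = _
  rw [map_sub, e.symm_apply_apply, e.symm.commutes]

section

variable {k F Ω B I : Type} [Field k] [CharZero k] [Field F] [Field Ω] [Field B]
  [Algebra k F] [Algebra F Ω] [Algebra k Ω] [Algebra k B] [IsScalarTower k F Ω] [IsAlgClosure F Ω]
  [IsAlgClosure k B] {L C : I → Type} [∀ i, Field (L i)] [∀ i, Field (C i)]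
  [∀ i, Algebra k (L i)] [∀ i, Algebra (L i) (C i)] [∀ i, Algebra k (C i)]
  [∀ i, IsScalarTower k (L i) (C i)] [∀ i, IsAlgClosure (L i) (C i)]

/-- **part U**: existence and, if `2` is not infinitely divisible in `k`, uniqueness -/
theorem ult_all (hob : Obs k B L C)
    (hF : ∃ t : F, Transcendental k t ∧ Algebra.IsAlgebraic (IntermediateField.adjoin k {t}) F)
    (s : GalSection k F Ω B) (pl : ∀ i, Plc k Ω (C i)) (hpl : ∀ i, s.GivenBy (L i) (pl i))
    {f : F} (hf0 : f ≠ 0) (hfv : ∀ i, (pl i).val (algebraMap F Ω f) 0) :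
    ∃ O : ValuationSubring F, f⁻¹ ∉ O ∧ s.ArisesFrom O ∧
      ((∃ N : ℕ, 0 < N ∧ ∀ c : k, c ^ N ≠ 2) →
        ∀ O' : ValuationSubring F, s.ArisesFrom O' → O' = O) := by
  have hΩ1 : IsAlgClosed Ω := IsAlgClosure.isAlgClosed F
  have hΩ2 : Algebra.IsAlgebraic F Ω := IsAlgClosure.isAlgebraic
  have hB1 : IsAlgClosed B := IsAlgClosure.isAlgClosed k
  have hB2 : Algebra.IsAlgebraic k B := IsAlgClosure.isAlgebraic
  have hnor : Normal k B := IsAlgClosure.normal k B
  have hcF : CharZero F := charZero_of_injective_algebraMap (algebraMap k F).injective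
  have hcΩ : CharZero Ω :=
    charZero_of_injective_algebraMap (algebraMap F Ω).injective
  have hcL : ∀ i, CharZero (L i) := fun i =>
    charZero_of_injective_algebraMap (algebraMap k (L i)).injective
  have hcC : ∀ i, CharZero (C i) := fun i =>
    charZero_of_injective_algebraMap (algebraMap k (C i)).injective
  set A := toSAct s with hA
  have hAF : ∀ (τ : AlgebraicClosure k ≃ₐ[k] AlgebraicClosure k) (x : F),
      A.s τ (algebraMap F Ω x) = algebraMap F Ω x :=
    fun τ x => (s.s ((eqv k B).autCongr τ)).commutes x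
  have hpl' : ∀ v, ∀ x ∈ A.fix, ∀ hx : x ∈ (pl v).W, ∃ z : L v,
      algebraMap (L v) (C v) z = (pl v).ρ ⟨x, hx⟩ := by
    intro v x hx hxW
    refine Pool.Agent.Y158.GR.fixL_val (hpl v) x ?_ hxW
    intro σ
    rw [← toSAct_s s]
    exact hx _
  have ht00 : algebraMap F Ω f ≠ 0 := by rwa [Ne, map_eq_zero]
  have hx0W : ∀ v, algebraMap F Ω f⁻¹ ∉ (pl v).W := by
    intro v hmem
    rw [map_inv₀] at hmem
    obtain ⟨c, hc⟩ := Plc.val_of_mem hmem
    have h1 := (hfv v).mul hc
    rw [mul_inv_cancel₀ ht00, zero_mul] at h1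
    exact one_ne_zero (Plc.val_one.unique h1)
  have hfinV : ∀ x, FinVal A pl x := by
    refine finVal_of_alg A pl (t := algebraMap F Ω f) ht00 hfv (fun x hx => ?_)
    exact (alg_adjoin_of_dim hF x hx).isAlgebraic _
  obtain ⟨U, hU⟩ := exists_ultra (A := A) (pl := pl) (obs_alg hob) hpl'
  have hfixF : ∀ x : F, algebraMap F Ω x ∈ A.fix := fun x τ => hAF τ x
  have hst : ∀ (g : B ≃ₐ[k] B) (x : Ω), x ∈ limW pl U → s.s g x ∈ limW pl U := by
    intro g x hx
    rw [← toSAct_s s]
    exact limW_stable hU hfinV _ hx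
  have hnt : f⁻¹ ∉ (limW pl U).comap (algebraMap F Ω) := by
    intro h3
    obtain ⟨v, hv⟩ := (mem_limW.1 (ValuationSubring.mem_comap.1 h3)).exists
    exact hx0W v hv
  have hres : ∀ a ∈ (limW pl U).comap (algebraMap F Ω), ∃ c : k,
      ((limW pl U).comap (algebraMap F Ω)).valuation (a - algebraMap k F c) < 1 := by
    intro a ha
    obtain ⟨c, hc⟩ := exists_value hU (hfixF a) (hfinV _) ha
    refine ⟨c, (ValuationSubring.mem_nonunits_iff_or _).2 ?_⟩
    by_cases h0 : a - algebraMap k F c = 0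
    · exact Or.inl h0
    · right
      intro h3
      have h4 := mem_limW.1 (ValuationSubring.mem_comap.1 h3)
      obtain ⟨v, hv1, hv2⟩ := (hc.and h4).exists
      have h5 : (pl v).val (algebraMap F Ω (a - algebraMap k F c)) 0 := by
        have := hv1.sub (Plc.val_alg (pl := pl v) c)
        rw [sub_self] at this
        rw [map_sub, ← IsScalarTower.algebraMap_apply]
        exact this
      rw [map_inv₀] at hv2
      refine Plc.notMem_of_val_inv (pl := pl v)
        (x := (algebraMap F Ω (a - algebraMap k F c))⁻¹)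
        (inv_ne_zero ((map_ne_zero _).2 h0)) ?_ hv2
      rw [inv_inv]
      exact h5
  have hcst : ∀ c : k, algebraMap k F c ∈ (limW pl U).comap (algebraMap F Ω) := by
    intro c
    rw [ValuationSubring.mem_comap, ← IsScalarTower.algebraMap_apply]
    exact alg_mem_limW c
  refine ⟨(limW pl U).comap (algebraMap F Ω), hnt, ⟨?_, hcst, hres, limW pl U, rfl,
    fun g x => ⟨fun h => ?_, hst g x⟩⟩, fun hK2 => ?_⟩
  · intro htop
    apply hnt
    rw [htop]
    exact ValuationSubring.mem_top f⁻¹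
  · have h3 := hst g⁻¹ _ h
    have h4 : s.s g⁻¹ (s.s g x) = x := by
      change (s.s g⁻¹ * s.s g) x = x
      rw [← map_mul, inv_mul_cancel, map_one]
      rfl
    rwa [h4] at h3
  · rintro O ⟨-, hO2, hO3, W, hW, hO4⟩
    exact unique_ring' hK2 A hfixF O _ hO2 hcst hO3 hres W (limW pl U) hW rfl
      (fun τ x hx => (hO4 _ x).2 hx) (fun τ x hx => limW_stable hU hfinV τ hx)

end

/-- **part U (limits)** with the hypothesis that `2` is not infinitely divisible in `k` (this is needed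
for the uniqueness) -/
def S_ULT2 : Prop := ∀ (k F Ω B I : Type) [Field k] [CharZero k] [Field F] [Field Ω] [Field B]
  [Algebra k F] [Algebra F Ω] [Algebra k Ω] [Algebra k B] [IsScalarTower k F Ω] [IsAlgClosure F Ω]
  [IsAlgClosure k B] (L C : I → Type) [∀ i, Field (L i)] [∀ i, Field (C i)]
  [∀ i, Algebra k (L i)] [∀ i, Algebra (L i) (C i)] [∀ i, Algebra k (C i)]
  [∀ i, IsScalarTower k (L i) (C i)] [∀ i, IsAlgClosure (L i) (C i)], Obs k B L C →
  (∃ N : ℕ, 0 < N ∧ ∀ c : k, c ^ N ≠ 2) →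
  (∃ t : F, Transcendental k t ∧ Algebra.IsAlgebraic (IntermediateField.adjoin k {t}) F) →
  ∀ (s : GalSection k F Ω B) (pl : ∀ i, Plc k Ω (C i)), (∀ i, s.GivenBy (L i) (pl i)) →
  ∀ f : F, f ≠ 0 → (∀ i, (pl i).val (algebraMap F Ω f) 0) →
  ∃ O : ValuationSubring F, f⁻¹ ∉ O ∧ s.ArisesFrom O ∧
    ∀ O' : ValuationSubring F, s.ArisesFrom O' → O' = O

theorem ult : S_ULT2 := by
  intro k F Ω B I _ _ _ _ _ _ _ _ _ _ _ _ L C _ _ _ _ _ _ _ hob h2 hF s pl hpl f hf hfv
  obtain ⟨O, h1, h3, h4⟩ := ult_all hob hF s pl hpl hf hfv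
  exact ⟨O, h1, h3, h4 h2⟩

end Pool.Agent.Zk94.FG
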